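import Pool.Agent.F.H76.DrTwist

set_option autoImplicit false

/-!
Rational points on the Drinfeld modular curves `Y_0(𝔭)`.

Here `k` is any finite field, `q` its number of elements, `A = k[X]` (the variable of `A` is written
`T` below) and `F = RatFunc k`.
-/

namespace Pool.Agent.Results.MP_531408_nt.RationalPoints

open Polynomial Pool.Agent.DrY Pool.Agent.DrTw

universe u v

/-- A Drinfeld `A`-module of rank two over a field extension `L` of `F`: a map `a ↦ φ_a` from `A`
to the polynomials over `L` with `φ_(a+b) = φ_a + φ_b`, `φ_(ab) = φ_a ∘ φ_b`, `φ_c = c x` for the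
constants `c ∈ k`, and `φ_T = T x + g x^q + Δ x^(q^2)` with `Δ ≠ 0`. -/
structure DrinfeldModule (k : Type u) (L : Type v) [Field k] [Fintype k] [Field L]
    [Algebra (RatFunc k) L] where
  /-- the polynomial `φ_a` -/
  poly : k[X] → L[X]
  map_add : ∀ a b : k[X], poly (a + b) = poly a + poly b
  map_mul : ∀ a b : k[X], poly (a * b) = (poly a).comp (poly b)
  map_C : ∀ c : k, poly (C c) = C (algebraMap (RatFunc k) L (RatFunc.C c)) * X
  /-- the coefficient of `x^q` -/
  g : L
  /-- the coefficient of `x^(q^2)` -/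
  Δ : L
  Δ_ne_zero : Δ ≠ 0
  map_T : poly X = C (algebraMap (RatFunc k) L RatFunc.X) * X + C g * X ^ Fintype.card k +
    C Δ * X ^ (Fintype.card k ^ 2)

namespace DrinfeldModule

variable {k : Type u} {L : Type v} [Field k] [Fintype k] [Field L] [Algebra (RatFunc k) L]

/-- Extension of scalars of a Drinfeld module from `F` to `L`. -/
noncomputable def baseChange (φ : DrinfeldModule k (RatFunc k)) (L : Type v) [Field L]
    [Algebra (RatFunc k) L] : DrinfeldModule k L where
  poly a := (φ.poly a).map (algebraMap (RatFunc k) L)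
  map_add a b := by rw [φ.map_add, Polynomial.map_add]
  map_mul a b := by rw [φ.map_mul, Polynomial.map_comp]
  map_C c := by
    rw [φ.map_C, Polynomial.map_mul, Polynomial.map_C, Polynomial.map_X]
    rfl
  g := algebraMap (RatFunc k) L φ.g
  Δ := algebraMap (RatFunc k) L φ.Δ
  Δ_ne_zero := (_root_.map_ne_zero _).mpr φ.Δ_ne_zero
  map_T := by
    rw [φ.map_T, Polynomial.map_add, Polynomial.map_add, Polynomial.map_mul, Polynomial.map_mul,
      Polynomial.map_mul, Polynomial.map_pow, Polynomial.map_pow, Polynomial.map_C,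
      Polynomial.map_C, Polynomial.map_C, Polynomial.map_X]
    rfl

/-- `S` is an `A`-submodule of `L`, on which `a ∈ A` acts by `x ↦ φ_a(x)`, and it is isomorphic to
`A/(P)` as an `A`-module. (Such an `S` is killed by `P`, so that it lies in `φ[P]`.) -/
def IsLine (φ : DrinfeldModule k L) (P : k[X]) (S : AddSubgroup L) : Prop :=
  (∀ a : k[X], ∀ x ∈ S, (φ.poly a).eval x ∈ S) ∧
  ∃ e : (k[X] ⧸ Ideal.span {P}) ≃+ S, ∀ (a : k[X]) (y : k[X] ⧸ Ideal.span {P}),
    ((e (Ideal.Quotient.mk (Ideal.span {P}) a * y) : S) : L) = (φ.poly a).eval ((e y : S) : L)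

/-- The isomorphism class of the pair `(φ, S)` is fixed by the Galois group of `L/F`: for every
`σ` there is an isomorphism `x ↦ c x` from the conjugate Drinfeld module `φ^σ` to `φ` (that is
`c φ^σ_a(x) = φ_a(c x)` for all `a`) which carries `σ(S)` onto `S`. -/
def ClassFixed (φ : DrinfeldModule k L) (S : AddSubgroup L) : Prop :=
  ∀ σ : L ≃ₐ[RatFunc k] L, ∃ c : L, c ≠ 0 ∧
    (∀ a : k[X], C c * (φ.poly a).map (σ : L →+* L) = (φ.poly a).comp (C c * X)) ∧
    ∀ x : L, x ∈ S ↔ ∃ y ∈ S, x = c * σ y

end DrinfeldModule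

section proofs

variable {k : Type u} {L : Type v} [Field k] [Fintype k] [Field L] [Algebra (RatFunc k) L]
  [Algebra k L] [IsScalarTower k (RatFunc k) L]

/-- the operator `φ_T` on `L` -/
noncomputable def opT (φ : DrinfeldModule k L) : L →ₗ[k] L :=
  PhiL k (F := L) L (algebraMap (RatFunc k) L RatFunc.X) φ.g φ.Δ

omit [IsScalarTower k (RatFunc k) L] in
lemma opT_apply (φ : DrinfeldModule k L) (y : L) :
    opT φ y = algebraMap (RatFunc k) L RatFunc.X * y + φ.g * y ^ Fintype.card k +
      φ.Δ * y ^ (Fintype.card k ^ 2) := by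
  rw [opT, PhiL_apply]
  rfl

omit [IsScalarTower k (RatFunc k) L] in
lemma eval_T (φ : DrinfeldModule k L) (y : L) : (φ.poly X).eval y = opT φ y := by
  rw [φ.map_T, opT_apply]
  simp

lemma eval_poly (φ : DrinfeldModule k L) (a : k[X]) :
    ∀ y : L, (φ.poly a).eval y = aeval (opT φ) a y := by
  induction a using Polynomial.induction_on with
  | C c =>
    intro y
    rw [φ.map_C, eval_mul, eval_C, eval_X, aeval_C, Module.algebraMap_end_apply,
      Algebra.smul_def, IsScalarTower.algebraMap_apply k (RatFunc k) L, RatFunc.algebraMap_eq_C]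
  | add a b ha hb =>
    intro y
    rw [φ.map_add, eval_add, ha, hb, _root_.map_add, LinearMap.add_apply]
  | monomial n c ih =>
    intro y
    have h1 : aeval (opT φ) (C c * X ^ n * X) = aeval (opT φ) (C c * X ^ n) * opT φ := by
      rw [_root_.map_mul (aeval (opT φ)) (C c * X ^ n) X, aeval_X]
    rw [pow_succ, ← mul_assoc, φ.map_mul, eval_comp, ih, eval_T, h1, Module.End.mul_apply]

/-- what is used of a line -/
lemma line_data (φ : DrinfeldModule k L) {P : k[X]} (hP : Irreducible P) {S : AddSubgroup L}
    (hS : φ.IsLine P S) :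
    ∃ V : Submodule k L, (∀ x, x ∈ V ↔ x ∈ S) ∧ Finite V ∧ Module.finrank k V = P.natDegree ∧
      (∀ x ∈ S, aeval (opT φ) P x = 0) ∧ ∀ x ∈ S, opT φ x ∈ S := by
  classical
  obtain ⟨hmod, e, he⟩ := hS
  have hsm : ∀ (c : k) (x : L), c • x = (φ.poly (C c)).eval x := by
    intro c x
    rw [eval_poly, aeval_C, Module.algebraMap_end_apply]
  let V : Submodule k L :=
    { carrier := S
      add_mem' := fun ha hb => S.add_mem ha hb
      zero_mem' := S.zero_mem
      smul_mem' := fun c x hx => by
        show c • x ∈ S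
        rw [hsm]
        exact hmod _ x hx }
  let E : (k[X] ⧸ Ideal.span {P}) ≃ₗ[k] V :=
    { toFun := fun y => ⟨(e y : L), (e y).2⟩
      invFun := fun v => e.symm ⟨(v : L), v.2⟩
      left_inv := fun y => by simp
      right_inv := fun v => by
        apply Subtype.ext
        show ((e (e.symm ⟨(v : L), v.2⟩) : S) : L) = v
        rw [AddEquiv.apply_symm_apply]
      map_add' := fun y z => by
        apply Subtype.ext
        show ((e (y + z) : S) : L) = (e y : L) + (e z : L)
        rw [_root_.map_add]
        rfl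
      map_smul' := fun c y => by
        apply Subtype.ext
        show ((e (c • y) : S) : L) = c • (e y : L)
        have h1 : c • y = Ideal.Quotient.mk (Ideal.span {P}) (C c) * y := by
          obtain ⟨b, rfl⟩ := Ideal.Quotient.mk_surjective y
          rw [← _root_.map_mul, ← smul_eq_C_mul]
          rfl
        rw [hsm, ← he, h1] }
  have hfr : Module.finrank k V = P.natDegree := by
    rw [← E.finrank_eq, finrank_quotient_span_eq_natDegree]
  have hpos : 0 < P.natDegree := hP.natDegree_pos
  have : Module.Finite k V := Module.finite_of_finrank_pos (by rw [hfr]; exact hpos)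
  refine ⟨V, fun x => Iff.rfl, Module.finite_of_finite k, hfr, ?_, ?_⟩
  · intro x hx
    have h1 := he P (e.symm ⟨x, hx⟩)
    rw [AddEquiv.apply_symm_apply, Ideal.Quotient.eq_zero_iff_mem.mpr
      (Ideal.mem_span_singleton_self P), zero_mul, _root_.map_zero, eval_poly] at h1
    exact h1.symm
  · intro x hx
    rw [← eval_T]
    exact hmod X x hx

lemma irr_map' {k : Type*} [Field k] (P : k[X]) (hirr : Irreducible P) :
    Irreducible (P.map (algebraMap k (RatFunc k))) := by
  have h1 := irr_map (P * C (P.leadingCoeff)⁻¹) (monic_mul_leadingCoeff_inv hirr.ne_zero)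
    (irreducible_mul_leadingCoeff_inv.mpr hirr)
  rw [Polynomial.map_mul, Polynomial.map_C, map_inv₀, ← leadingCoeff_map] at h1
  exact irreducible_mul_leadingCoeff_inv.mp h1

/-- the numerical input -/
lemma no_Q' {k : Type*} [Field k] [Fintype k] (P : k[X]) (hirr : Irreducible P)
    (hdeg : (if Fintype.card k = 3 then 4 else 3) ≤ P.natDegree)
    (g Δ : RatFunc k) (hΔ : Δ ≠ 0) (Q : (RatFunc k)[X])
    (hdvd : P.map (algebraMap k (RatFunc k)) ∣ X - C RatFunc.X - C g * Q -
      C Δ * (Q.map (FiniteField.frobeniusAlgHom k (RatFunc k) : RatFunc k →+* RatFunc k)) * Q) :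
    False := by
  obtain ⟨p, hchar, n, hp, hcard⟩ := FiniteField.card' k
  have : Fact p.Prime := ⟨hp⟩
  refine no_Q (p := p) (n := (n : ℕ)) n.ne_zero hcard P hirr ?_ ?_ g Δ hΔ Q hdvd
  · split_ifs at hdeg <;> omega
  · rintro ⟨h1, h2⟩
    rw [hcard, if_pos h1] at hdeg
    omega

end proofs

section parts

variable {k : Type u} {L : Type v} [Field k] [Fintype k] [Field L] [Algebra (RatFunc k) L]

/-- The class of a pair over a Galois extension of `F` is never fixed by the Galois group. -/
lemma not_classFixed [IsGalois (RatFunc k) L] {P : k[X]} (hP : Irreducible P)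
    (hdeg : (if Fintype.card k = 3 then 4 else 3) ≤ P.natDegree)
    (φ : DrinfeldModule k L) (S : AddSubgroup L) (hS : φ.IsLine P S) : ¬ φ.ClassFixed S := by
  intro hfix
  let _ : Algebra k L := ((algebraMap (RatFunc k) L).comp (algebraMap k (RatFunc k))).toAlgebra
  have : IsScalarTower k (RatFunc k) L := IsScalarTower.of_algebraMap_eq fun _ => rfl
  obtain ⟨V, hV, hfin, hfr, htor, hst⟩ := line_data φ hP hS
  let φV : V →ₗ[k] V := (opT φ).restrict (fun x hx => (hV _).mpr (hst x ((hV x).mp hx)))
  have hPV : aeval φV P = 0 := by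
    refine LinearMap.ext fun v => Subtype.ext ?_
    have h1 := aeval_intertwine φV (opT φ) V.subtype (fun v => rfl) P v
    rw [show V.subtype v = (v : L) from rfl, htor _ ((hV _).mp v.2)] at h1
    exact h1
  have hq1 : 1 < Fintype.card k := Fintype.one_lt_card
  have hq2 : Fintype.card k < Fintype.card k ^ 2 := by nlinarith
  obtain ⟨g', Δ', Q, hΔ', hdvd⟩ := descent_tw (RatFunc.X : RatFunc k) φ.g φ.Δ φ.Δ_ne_zero V φV
    (fun s => opT_apply φ s) (by
      intro σ
      obtain ⟨c, hc, hcomm, hmem⟩ := hfix σ
      have hT := hcomm X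
      rw [φ.map_T] at hT
      simp only [Polynomial.map_add, Polynomial.map_mul, Polynomial.map_C, Polynomial.map_X,
        Polynomial.map_pow, add_comp, mul_comp, C_comp, X_comp, pow_comp, mul_pow, ← C_pow] at hT
      refine ⟨c, hc, ?_, ?_, ?_⟩
      · have h1 := congrArg (fun f : L[X] => f.coeff (Fintype.card k)) hT
        simp only [mul_add, coeff_add, coeff_C_mul, coeff_X_pow, coeff_X, if_neg hq1.ne,
          if_neg hq2.ne, if_true, mul_zero, mul_one, zero_add, add_zero] at h1
        exact h1
      · have h1 := congrArg (fun f : L[X] => f.coeff (Fintype.card k ^ 2)) hT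
        simp only [mul_add, coeff_add, coeff_C_mul, coeff_X_pow, coeff_X, if_neg (hq1.trans hq2).ne,
          if_neg hq2.ne', if_true, mul_zero, mul_one, zero_add, add_zero] at h1
        exact h1
      · intro s hs
        exact (hV _).mpr ((hmem _).mpr ⟨s, (hV s).mp hs, rfl⟩)) P (irr_map' P hP) hPV hfr
  exact no_Q' P hP hdeg g' Δ' hΔ' Q hdvd

/-- No rational line over `F`. -/
lemma not_stable [Normal (RatFunc k) L] {P : k[X]} (hP : Irreducible P)
    (hdeg : (if Fintype.card k = 3 then 4 else 3) ≤ P.natDegree)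
    (φ : DrinfeldModule k (RatFunc k)) (S : AddSubgroup L) (hS : (φ.baseChange L).IsLine P S) :
    ∃ σ : L ≃ₐ[RatFunc k] L, ∃ x ∈ S, σ x ∉ S := by
  by_contra hno
  push Not at hno
  let _ : Algebra k L := ((algebraMap (RatFunc k) L).comp (algebraMap k (RatFunc k))).toAlgebra
  have : IsScalarTower k (RatFunc k) L := IsScalarTower.of_algebraMap_eq fun _ => rfl
  obtain ⟨V, hV, hfin, hfr, htor, hst⟩ := line_data (φ.baseChange L) hP hS
  obtain ⟨p, hchar, n, hp, hcard⟩ := FiniteField.card' k
  have : Fact p.Prime := ⟨hp⟩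
  have : CharP (RatFunc k) p :=
    charP_of_injective_algebraMap (algebraMap k (RatFunc k)).injective p
  have hPT : aeval (RatFunc.X : RatFunc k) P ≠ 0 := by
    rw [← RatFunc.algebraMap_X, Polynomial.aeval_algebraMap_apply, Polynomial.aeval_X_left_apply]
    exact (map_ne_zero_iff _ (IsFractionRing.injective k[X] (RatFunc k))).mpr hP.ne_zero
  have hop : PhiL k L (RatFunc.X : RatFunc k) φ.g φ.Δ = opT (φ.baseChange L) := by
    refine LinearMap.ext fun y => ?_
    rw [PhiL_apply, opT_apply]
    rfl
  have hSV : (S : Set L) = (V : Set L) := Set.ext fun x => (hV x).symm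
  obtain ⟨Q, hQ⟩ := descent_S (L := L) (p := p) (n := (n : ℕ)) n.ne_zero hcard P (irr_map' P hP)
    RatFunc.X φ.g φ.Δ hPT (S : Set L) (by
      rw [hSV]
      exact Set.toFinite _) (by
      rw [hSV]
      have h1 := Module.natCard_eq_pow_finrank (K := k) (V := V)
      rw [Nat.card_eq_fintype_card (α := k), hcard, hfr] at h1
      exact h1) S.zero_mem (fun x hx y hy => S.add_mem hx hy) (by
      intro c x hx
      exact (hV _).mp (V.smul_mem c ((hV x).mpr hx))) (by
      intro x hx
      rw [hop]
      exact hst x hx) (by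
      intro x hx
      rw [hop]
      exact htor x hx) (fun σ x hx => hno σ x hx)
  exact no_Q' P hP hdeg φ.g φ.Δ φ.Δ_ne_zero Q hQ

/-- The definition of `DrinfeldModule` is the usual one: for all `g` and `Δ ≠ 0` in `L` there is
exactly one Drinfeld module of rank two over `L` with these coefficients. -/
lemma existsUnique_drinfeldModule (g Δ : L) (hΔ : Δ ≠ 0) :
    ∃! φ : DrinfeldModule k L, φ.g = g ∧ φ.Δ = Δ := by
  let _ : Algebra k L := ((algebraMap (RatFunc k) L).comp (algebraMap k (RatFunc k))).toAlgebra
  have : IsScalarTower k (RatFunc k) L := IsScalarTower.of_algebraMap_eq fun _ => rfl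
  have : Infinite L :=
    Infinite.of_injective (fun a : k[X] => algebraMap (RatFunc k) L (algebraMap k[X] (RatFunc k) a))
      ((algebraMap (RatFunc k) L).injective.comp (IsFractionRing.injective k[X] (RatFunc k)))
  let ψ : L →ₗ[k] L := PhiL k (F := L) L (algebraMap (RatFunc k) L RatFunc.X) g Δ
  have hψ : ∀ y : L, ψ y = algebraMap (RatFunc k) L RatFunc.X * y + g * y ^ Fintype.card k +
      Δ * y ^ (Fintype.card k ^ 2) := by
    intro y
    rw [PhiL_apply]
    rfl
  have hcard : ((Fintype.card k : ℕ) : L) = 0 := by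
    obtain ⟨p, hchar, n, hp, hcard⟩ := FiniteField.card' k
    have : CharP L p := charP_of_injective_algebraMap (algebraMap k L).injective p
    rw [hcard, Nat.cast_pow, CharP.cast_eq_zero, zero_pow n.ne_zero]
  have hex : ∀ a : k[X], ∃ G : L[X], ∀ y : L, G.eval y = aeval ψ a y := by
    intro a
    obtain ⟨G, hG, -⟩ := exists_poly (L := L) hcard (algebraMap (RatFunc k) L RatFunc.X) g Δ a
    refine ⟨G, fun y => ?_⟩
    rw [← hG, Polynomial.coe_aeval_eq_eval]
  choose G hG using hex
  let φ : DrinfeldModule k L :=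
    { poly := G
      map_add := fun a b => Polynomial.funext fun y => by
        rw [eval_add, hG, hG, hG, _root_.map_add, LinearMap.add_apply]
      map_mul := fun a b => Polynomial.funext fun y => by
        rw [eval_comp, hG, hG, hG, _root_.map_mul, Module.End.mul_apply]
      map_C := fun c => Polynomial.funext fun y => by
        rw [hG, aeval_C, Module.algebraMap_end_apply, eval_mul, eval_C, eval_X,
          Algebra.smul_def, IsScalarTower.algebraMap_apply k (RatFunc k) L,
          RatFunc.algebraMap_eq_C]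
      g := g
      Δ := Δ
      Δ_ne_zero := hΔ
      map_T := Polynomial.funext fun y => by
        rw [hG, aeval_X, hψ]
        simp }
  refine ⟨φ, ⟨rfl, rfl⟩, ?_⟩
  rintro φ' ⟨h1, h2⟩
  have hop : opT φ' = ψ := by
    refine LinearMap.ext fun y => ?_
    rw [opT_apply, hψ, h1, h2]
  have hp : φ'.poly = G := by
    funext a
    refine Polynomial.funext fun y => ?_
    rw [eval_poly, hop, hG]
  cases φ'
  simp only at h1 h2 hp
  subst h1 h2 hp
  rfl

end parts

/-- **The curves `Y_0(𝔭)` have no rational points.** Let `k` be a finite field with `q` elements,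
`A = k[X]`, `F = RatFunc k`, and let `𝔭 = (P)` be a prime of `A` of degree at least `3`, and at
least `4` if `q = 3`. Let `L` be a field extension of `F`.

1. If `L/F` is normal (for example a separable or an algebraic closure of `F`), then for no
Drinfeld `A`-module `φ` of rank two over `F` is there an `A`-submodule of `φ[𝔭] ⊆ L` isomorphic to
`A/𝔭` which is stable under the Galois group of `L/F`.

2. If `L/F` is Galois (for example a separable closure of `F`), then no pair `(φ, S)` of a Drinfeld
`A`-module `φ` of rank two over `L` and an `A`-submodule `S` of `φ[𝔭] ⊆ L` isomorphic to `A/𝔭` has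
an isomorphism class fixed by the Galois group: `Y_0(𝔭)`, as the coarse moduli space, has no
`F`-rational points. -/
theorem result (k : Type u) [Field k] [Fintype k] (P : k[X]) (hP : Irreducible P)
    (hdeg : (if Fintype.card k = 3 then 4 else 3) ≤ P.natDegree)
    (L : Type v) [Field L] [Algebra (RatFunc k) L] :
    (Normal (RatFunc k) L → ∀ (φ : DrinfeldModule k (RatFunc k)) (S : AddSubgroup L),
      (φ.baseChange L).IsLine P S → ∃ σ : L ≃ₐ[RatFunc k] L, ∃ x ∈ S, σ x ∉ S) ∧
    (IsGalois (RatFunc k) L → ∀ (φ : DrinfeldModule k L) (S : AddSubgroup L),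
      φ.IsLine P S → ¬ φ.ClassFixed S) :=
  ⟨fun _ φ S hS => not_stable hP hdeg φ S hS, fun _ φ S hS => not_classFixed hP hdeg φ S hS⟩

end Pool.Agent.Results.MP_531408_nt.RationalPoints
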